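import Pool.Agent.H63.AC.Defs

/-!
# THEOREM ACS, chapter E: the sum rule with many summands from the sum rule with two summands

The circuit of a refutation gets, for every node `p` and every `i ≤ m` (`m` the number of nodes), a node `(p, i)`
with the gate `sym A_(p,i) S_(p,i)`: `B_p` = the nodes which are positive members of `p`, `S_(p,i)` = the union of the
sets of the members with number `< i`, `A_(p,i)` = the sums of elements of their sets `A`. The rank of `(p, i)`
is the rank of `p`.

The lines `M_(p,i) = {¬ p, (p, i)}` are derived one after the other by the sum rule with two summands, and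
`(p, m)` gives `sym A' (⋃ S b)` by `cover`.
-/

set_option autoImplicit false
set_option linter.unusedTactic false

namespace Pool.Agent.H46.AC

open Pool.Agent.H42.CS (Ax Atom Lit Gate Circuit)

variable {Rel : ℕ → Type} {P : Type} {T : Set (Ax Rel)}

private theorem st_mono {C : Circuit Rel P} {Pr Pr' : Set (Set (Lit C.N))} {Λ : Set (Lit C.N)} (h : Pr ⊆ Pr')
    (hs : Pool.Agent.H63.AC.Step T C Pr Λ) : Pool.Agent.H63.AC.Step T C Pr' Λ := by
  cases hs with
  | hyp h1 h2 => exact .hyp h1 h2
  | ident h1 h2 h3 => exact .ident h1 h2 h3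
  | weak h1 h2 => exact .weak (h h1) h2
  | cut h1 h2 => exact .cut (h h1) (h h2)
  | andI h1 h2 h3 => exact .andI h1 h2 fun x hx => h (h3 x hx)
  | andE h1 h2 h3 => exact .andE h1 h2 (h h3)
  | cover h1 => exact .cover h1
  | unit h1 h2 h3 => exact .unit h1 h2 h3
  | sum h1 h2 h3 h4 h5 h6 h7 h8 => exact .sum h1 h2 h3 h4 h5 h6 h7 h8
  | dist h1 h2 h3 h4 h5 h6 h7 h8 => exact .dist h1 h2 h3 h4 h5 h6 h7 h8

/-! ### Closure of a set of lines under the rules -/

/-- The lines of `L` which are derived in at most `k` rounds. -/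
private def stage (T : Set (Ax Rel)) (C : Circuit Rel P) (L : Set (Set (Lit C.N))) : ℕ → Set (Set (Lit C.N))
  | 0 => ∅
  | k + 1 => {Λ | Λ ∈ L ∧ Pool.Agent.H63.AC.Step T C (stage T C L k) Λ}

private theorem stage_succ (C : Circuit Rel P) (L : Set (Set (Lit C.N))) (k : ℕ) :
    stage T C L k ⊆ stage T C L (k + 1) := by
  induction k with
  | zero => exact Set.empty_subset _
  | succ k ih =>
    rintro Λ ⟨h1, h2⟩
    exact ⟨h1, st_mono ih h2⟩

private theorem stage_mono (C : Circuit Rel P) (L : Set (Set (Lit C.N))) : Monotone (stage T C L) :=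
  monotone_nat_of_le_succ (stage_succ C L)

private theorem lit_finite (N : Type) [Finite N] : Finite (Lit N) :=
  Finite.of_injective (fun x : Lit N => (x.node, x.pos)) (by
    rintro ⟨a, s⟩ ⟨b, t⟩ h
    have h1 : a = b := congrArg Prod.fst h
    have h2 : s = t := congrArg Prod.snd h
    rw [h1, h2])

/-- The lines of `L` which can be derived inside `L`. -/
private def clo (T : Set (Ax Rel)) (C : Circuit Rel P) (L : Set (Set (Lit C.N))) : Set (Set (Lit C.N)) :=
  ⋃ k, stage T C L k

private theorem clo_eq (C : Circuit Rel P) (L : Set (Set (Lit C.N))) : ∃ k, clo T C L = stage T C L k := by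
  have := lit_finite C.N
  have h1 : ∀ Λ ∈ clo T C L, ∃ k, Λ ∈ stage T C L k := fun Λ h => Set.mem_iUnion.1 h
  choose! f hf using h1
  obtain ⟨M, hM⟩ := (Set.toFinite (f '' clo T C L)).bddAbove
  refine ⟨M, Set.Subset.antisymm ?_ (Set.subset_iUnion _ _)⟩
  intro Λ h
  exact stage_mono C L (hM ⟨Λ, h, rfl⟩) (hf Λ h)

private theorem clo_step {C : Circuit Rel P} {L : Set (Set (Lit C.N))} {Λ : Set (Lit C.N)} (h : Λ ∈ L)
    (hs : Pool.Agent.H63.AC.Step T C (clo T C L) Λ) : Λ ∈ clo T C L := by
  obtain ⟨k, hk⟩ := clo_eq (T := T) C L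
  rw [hk] at hs
  exact Set.mem_iUnion.2 ⟨k + 1, h, hs⟩

private theorem clo_sub (C : Circuit Rel P) (L : Set (Set (Lit C.N))) : clo T C L ⊆ L := by
  intro Λ h
  obtain ⟨k, hk⟩ := Set.mem_iUnion.1 h
  cases k with
  | zero => exact absurd hk (Set.notMem_empty _)
  | succ k => exact hk.1

/-- A refutation from the closure. -/
private theorem clo_ref (C : Circuit Rel P) (L : Set (Set (Lit C.N))) (h : ∅ ∈ clo T C L) :
    ∃ R : Pool.Agent.H63.AC.Refutation T P, R.C = C ∧ R.lines.ncard ≤ L.ncard := by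
  classical
  have := lit_finite C.N
  have h1 : ∀ Λ ∈ clo T C L, ∃ k, Λ ∈ stage T C L k := fun Λ h => Set.mem_iUnion.1 h
  refine ⟨⟨C, clo T C L, fun Λ => if h : ∃ k, Λ ∈ stage T C L k then Nat.find h else 0, ?_, h⟩, rfl,
    Set.ncard_le_ncard (clo_sub C L) (Set.toFinite _)⟩
  intro Λ hΛ
  have h2 := h1 Λ hΛ
  obtain ⟨k, hk⟩ : ∃ k, k = Nat.find h2 := ⟨_, rfl⟩
  have h3 := Nat.find_spec h2
  rw [← hk] at h3
  cases k with
  | zero => exact absurd h3 (Set.notMem_empty _)
  | succ k =>
    refine st_mono ?_ h3.2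
    intro Δ hΔ
    refine ⟨Set.mem_iUnion.2 ⟨k, hΔ⟩, ?_⟩
    beta_reduce
    rw [dif_pos ⟨k, hΔ⟩, dif_pos h2, ← hk]
    exact Nat.lt_succ_of_le (Nat.find_min' _ hΔ)

/-! ### The circuit with the chains -/

/-- The label with renamed nodes. -/
private def gm {V N N' : Type} (g : N → N') : Gate V N → Gate V N'
  | .var v => .var v
  | .and S => .and (Lit.map g '' S)
  | .sym A S => .sym A (Lit.map g '' S)

/-- The set of numbers of a symmetric gate. -/
private def gA {V N : Type} : Gate V N → Set ℕ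
  | .sym A _ => A
  | _ => ∅

/-- The set of signed nodes of a symmetric gate. -/
private def gS {V N : Type} : Gate V N → Set (Lit N)
  | .sym _ S => S
  | _ => ∅

private theorem gS_sub {V N : Type} (g : Gate V N) : gS g ⊆ g.children := by
  cases g with
  | var v => exact Set.empty_subset _
  | and S => exact Set.empty_subset _
  | sym A S => exact subset_rfl

variable (C : Circuit Rel P)

/-- The nodes of the chain of `p` before `i`. -/
private def pb (num : C.N → ℕ) (p : C.N) (i : ℕ) : Set C.N :=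
  {b | ⟨b, true⟩ ∈ (C.gate p).children ∧ num b < i}

/-- The set of the chain. -/
private def cS (num : C.N → ℕ) (p : C.N) (i : ℕ) : Set (Lit C.N) := ⋃ b ∈ pb C num p i, gS (C.gate b)

/-- The numbers of the chain. -/
private def cA (num : C.N → ℕ) (p : C.N) (i : ℕ) : Set ℕ :=
  {s | ∃ c : C.N → ℕ, (∀ b ∈ pb C num p i, c b ∈ gA (C.gate b)) ∧ s = ∑ᶠ b ∈ pb C num p i, c b}

/-- The circuit with the chains. -/
private def ext (num : C.N → ℕ) (m : ℕ) : Circuit Rel P where
  N := C.N ⊕ (C.N × Fin (m + 1))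
  fin := by
    haveI := C.fin
    infer_instance
  gate := fun a => match a with
    | .inl a => gm Sum.inl (C.gate a)
    | .inr (p, i) => .sym (cA C num p i) (Lit.map Sum.inl '' cS C num p i)
  rank := fun a => match a with
    | .inl a => C.rank a
    | .inr (p, _) => C.rank p
  rank_lt := by
    rintro (a | ⟨p, i⟩) x hx
    · have h1 : ∃ y ∈ (C.gate a).children, x = Lit.map Sum.inl y := by
        revert hx
        show x ∈ (gm Sum.inl (C.gate a)).children → _
        cases C.gate a with
        | var v => exact fun h => absurd h (Set.notMem_empty _)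
        | and S =>
          rintro ⟨y, hy, rfl⟩
          exact ⟨y, hy, rfl⟩
        | sym A S =>
          rintro ⟨y, hy, rfl⟩
          exact ⟨y, hy, rfl⟩
      obtain ⟨y, hy, rfl⟩ := h1
      exact C.rank_lt a y hy
    · obtain ⟨y, hy, rfl⟩ : ∃ y ∈ cS C num p i, Lit.map Sum.inl y = x := hx
      obtain ⟨b, hb, hy2⟩ := Set.mem_iUnion₂.1 hy
      have h1 := C.rank_lt p ⟨b, true⟩ hb.1
      have h2 := C.rank_lt b y (gS_sub _ hy2)
      exact lt_trans h2 h1

variable {C}

private theorem map_inj {m : ℕ} : Function.Injective (Lit.map (Sum.inl : C.N → C.N ⊕ (C.N × Fin (m + 1)))) := by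
  rintro ⟨a, s⟩ ⟨b, t⟩ h
  have h1 : (Sum.inl a : C.N ⊕ (C.N × Fin (m + 1))) = Sum.inl b := congrArg Lit.node h
  have h2 : s = t := congrArg Lit.pos h
  rw [Sum.inl_injective h1, h2]

/-- The lines of the new refutation. -/
private def ln {C : Circuit Rel P} {m : ℕ} (e : C.N ≃ Fin m) (p : C.N) (i : Fin (m + 1)) :
    Set (Lit (ext C (fun a => (e a).val) m).N) :=
  {⟨.inl p, false⟩, ⟨.inr (p, i), true⟩}

private def l1 {C : Circuit Rel P} {m : ℕ} (e : C.N ≃ Fin m) (p : C.N) (i : Fin m) :
    Set (Lit (ext C (fun a => (e a).val) m).N) :=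
  insert ⟨.inr (p, i.castSucc), false⟩ (ln e p i.succ)

private def up {C : Circuit Rel P} {m : ℕ} (e : C.N ≃ Fin m) (Λ : Set (Lit C.N)) :
    Set (Lit (ext C (fun a => (e a).val) m).N) :=
  Lit.map Sum.inl '' Λ

/-- All lines. -/
private def FL {C : Circuit Rel P} {m : ℕ} (e : C.N ≃ Fin m) (Ls : Set (Set (Lit C.N))) :
    (Ls × Option (C.N × Bool)) ⊕ ((C.N × Fin (m + 1)) ⊕ (C.N × Fin m × Fin 5)) →
      Set (Lit (ext C (fun a => (e a).val) m).N)
  | .inl (Λ, none) => up e Λ
  | .inl (Λ, some (p, s)) => insert ⟨.inr (p, Fin.last m), s⟩ (up e Λ)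
  | .inr (.inl (p, i)) => ln e p i
  | .inr (.inr (p, i, 0)) => insert ⟨.inr (p, i.castSucc), true⟩ (ln e p i.succ)
  | .inr (.inr (p, i, 1)) => l1 e p i
  | .inr (.inr (p, i, 2)) => insert ⟨.inl (e.symm i), false⟩ (l1 e p i)
  | .inr (.inr (p, i, 3)) => insert ⟨.inl (e.symm i), true⟩ (l1 e p i)
  | .inr (.inr (p, i, 4)) => insert ⟨.inl (e.symm i), true⟩ (l1 e p i) ∪
      Lit.neg '' ((ext C (fun a => (e a).val) m).gate (.inl p)).children

section chain

variable {m : ℕ} (e : C.N ≃ Fin m) (Ls : Set (Set (Lit C.N)))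

/-- The chain of `p`. -/
private theorem chain {p : C.N} {B : Set C.N} {A : C.N → Set ℕ} {S : C.N → Set (Lit C.N)}
    (h1 : ∀ b ∈ B, C.gate b = .sym (A b) (S b)) (h2 : B.PairwiseDisjoint S)
    (h3 : C.gate p = .and ((fun b => ⟨b, true⟩) '' B)) :
    ∀ (i : ℕ) (hi : i < m + 1), ln e p ⟨i, hi⟩ ∈ clo T (ext C (fun a => (e a).val) m) (Set.range (FL e Ls)) := by
  classical
  have := C.fin
  have hpb : ∀ i b, b ∈ pb C (fun a => (e a).val) p i ↔ b ∈ B ∧ (e b).val < i := by
    intro i b
    unfold pb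
    rw [h3]
    constructor
    · rintro ⟨⟨b', hb', h4⟩, h5⟩
      have h6 : b' = b := congrArg Lit.node h4
      rw [h6] at hb'
      exact ⟨hb', h5⟩
    · rintro ⟨h4, h5⟩
      exact ⟨⟨b, h4, rfl⟩, h5⟩
  have hgp : (ext C (fun a => (e a).val) m).gate (.inl p) = .and (Lit.map Sum.inl '' ((fun b => ⟨b, true⟩) '' B)) := by
    show gm Sum.inl (C.gate p) = _
    rw [h3]
    rfl
  intro i
  induction i with
  | zero =>
    intro hi
    refine clo_step ⟨.inr (.inl (p, ⟨0, hi⟩)), rfl⟩ ?_
    have h0 : pb C (fun a => (e a).val) p 0 = ∅ := by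
      ext b
      rw [hpb]
      simp
    have hS : cS C (fun a => (e a).val) p 0 = ∅ := by
      unfold cS
      rw [h0, Set.biUnion_empty]
    refine Pool.Agent.H63.AC.Step.cover (S := Lit.map Sum.inl '' cS C (fun a => (e a).val) p 0) fun c hc => ?_
    rw [hS, Set.image_empty, Set.ncard_empty] at hc
    refine ⟨.inr (p, ⟨0, hi⟩), cA C (fun a => (e a).val) p 0, true, rfl, ?_, Or.inr rfl⟩
    refine iff_of_true ?_ rfl
    have hc0 : c = 0 := by omega
    refine ⟨fun _ => 0, fun b hb => ?_, ?_⟩
    · rw [h0] at hb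
      exact absurd hb (Set.notMem_empty _)
    · rw [h0, hc0]
      simp
  | succ i ih =>
    intro hi
    have him : i < m := by omega
    obtain ⟨j, hj⟩ : ∃ j : Fin m, j.val = i := ⟨⟨i, him⟩, rfl⟩
    have hcs : j.castSucc = (⟨i, by omega⟩ : Fin (m + 1)) := Fin.ext hj
    have hsu : j.succ = (⟨i + 1, hi⟩ : Fin (m + 1)) := Fin.ext (by rw [Fin.val_succ, hj])
    have ih' := ih (by omega)
    obtain ⟨b, hb⟩ : ∃ b, b = e.symm j := ⟨_, rfl⟩
    have heb : (e b).val = i := by rw [hb, Equiv.apply_symm_apply, hj]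
    -- the line `Λ1`
    have hl1 : l1 e p j ∈ clo T (ext C (fun a => (e a).val) m) (Set.range (FL e Ls)) := by
      by_cases hbB : b ∈ B
      · have hins : pb C (fun a => (e a).val) p (i + 1) = insert b (pb C (fun a => (e a).val) p i) := by
          ext b'
          rw [hpb, Set.mem_insert_iff, hpb]
          constructor
          · rintro ⟨h4, h5⟩
            rcases Nat.lt_succ_iff_lt_or_eq.1 h5 with h6 | h6
            · exact Or.inr ⟨h4, h6⟩
            · left
              rw [← heb] at h6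
              exact e.injective (Fin.ext h6)
          · rintro (rfl | ⟨h4, h5⟩)
            · exact ⟨hbB, by omega⟩
            · exact ⟨h4, by omega⟩
        have hnot : b ∉ pb C (fun a => (e a).val) p i := by
          rw [hpb]
          rintro ⟨-, h4⟩
          omega
        have hgb : (ext C (fun a => (e a).val) m).gate (.inl b) = .sym (A b) (Lit.map Sum.inl '' S b) := by
          show gm Sum.inl (C.gate b) = _
          rw [h1 b hbB]
          rfl
        refine clo_step ⟨.inr (.inr (p, j, 1)), rfl⟩ (Pool.Agent.H63.AC.Step.cut (a := .inl b) ?_ ?_)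
        · -- `b` true
          rw [hb]
          refine clo_step ⟨.inr (.inr (p, j, 3)), rfl⟩ (Pool.Agent.H63.AC.Step.andE (a := .inl p) hgp (Or.inr (Or.inr (Or.inl rfl))) ?_)
          refine clo_step ⟨.inr (.inr (p, j, 4)), ?_⟩ ?_
          · show insert _ (l1 e p j) ∪ Lit.neg '' ((ext C (fun a => (e a).val) m).gate (.inl p)).children = _
            rw [hgp]
            rfl
          · refine Pool.Agent.H63.AC.Step.ident (a := .inl b) (b := .inl b) rfl (Or.inl (Or.inl (by rw [hb]))) (Or.inr ?_)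
            exact ⟨⟨.inl b, true⟩, ⟨⟨b, true⟩, ⟨b, hbB, rfl⟩, rfl⟩, rfl⟩
        · -- `b` false: the sum rule
          rw [hb]
          refine clo_step ⟨.inr (.inr (p, j, 2)), rfl⟩ ?_
          refine Pool.Agent.H63.AC.Step.sum (a := .inr (p, j.succ)) (b₁ := .inr (p, j.castSucc)) (b₂ := .inl b)
            (A₁ := cA C (fun a => (e a).val) p i) (A₂ := A b) (A' := cA C (fun a => (e a).val) p (i + 1))
            (S₁ := Lit.map Sum.inl '' cS C (fun a => (e a).val) p i) (S₂ := Lit.map Sum.inl '' S b) ?_ hgb ?_ ?_ ?_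
            (Or.inr (Or.inl rfl)) (Or.inl (by rw [hb])) (Or.inr (Or.inr (Or.inr rfl)))
          · rw [hcs]
            rfl
          · refine (Set.disjoint_image_iff (map_inj (C := C) (m := m))).2 ?_
            unfold cS
            rw [Set.disjoint_iUnion₂_left]
            intro b' hb'
            rw [hpb] at hb'
            rw [h1 b' hb'.1]
            refine h2 hb'.1 hbB ?_
            rintro rfl
            omega
          · rw [hsu, ← Set.image_union]
            show Gate.sym (cA C (fun a => (e a).val) p (i + 1)) (Lit.map Sum.inl '' cS C (fun a => (e a).val) p (i + 1)) = _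
            congr 2
            unfold cS
            rw [hins, Set.biUnion_insert, h1 b hbB, Set.union_comm]
            rfl
          · rintro c1 ⟨c, hc, rfl⟩ c2 hc2
            refine ⟨Function.update c b c2, ?_, ?_⟩
            · intro b' hb'
              rw [hins] at hb'
              rcases hb' with rfl | hb'
              · rw [Function.update_self, h1 _ hbB]
                exact hc2
              · rw [Function.update_of_ne (by rintro rfl; exact hnot hb')]
                exact hc b' hb'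
            · rw [hins, finsum_mem_insert _ hnot (Set.toFinite _), Function.update_self, add_comm]
              congr 1
              refine finsum_mem_congr rfl fun b' hb' => ?_
              rw [Function.update_of_ne (by rintro rfl; exact hnot hb')]
      · have hins : pb C (fun a => (e a).val) p (i + 1) = pb C (fun a => (e a).val) p i := by
          ext b'
          rw [hpb, hpb]
          constructor
          · rintro ⟨h4, h5⟩
            refine ⟨h4, ?_⟩
            rcases Nat.lt_succ_iff_lt_or_eq.1 h5 with h6 | h6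
            · exact h6
            · rw [← heb] at h6
              have h7 : b' = b := e.injective (Fin.ext h6)
              rw [h7] at h4
              exact absurd h4 hbB
          · rintro ⟨h4, h5⟩
            exact ⟨h4, by omega⟩
        refine clo_step ⟨.inr (.inr (p, j, 1)), rfl⟩ (Pool.Agent.H63.AC.Step.ident (a := .inr (p, j.succ)) (b := .inr (p, j.castSucc)) ?_
          (Or.inr (Or.inr rfl)) (Or.inl rfl))
        rw [hsu, hcs]
        show Gate.sym (cA C (fun a => (e a).val) p (i + 1)) (Lit.map Sum.inl '' cS C (fun a => (e a).val) p (i + 1)) =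
          Gate.sym (cA C (fun a => (e a).val) p i) (Lit.map Sum.inl '' cS C (fun a => (e a).val) p i)
        unfold cA cS
        rw [hins]
    refine clo_step ⟨.inr (.inl (p, ⟨i + 1, hi⟩)), rfl⟩ (Pool.Agent.H63.AC.Step.cut (a := .inr (p, j.castSucc)) ?_ ?_)
    · rw [← hsu]
      refine clo_step ⟨.inr (.inr (p, j, 0)), rfl⟩ (Pool.Agent.H63.AC.Step.weak ih' ?_)
      rw [hcs]
      rintro x (rfl | rfl)
      · exact Or.inr (Or.inl rfl)
      · exact Or.inl rfl
    · rw [← hsu]
      exact hl1

end chain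

/-! ### The rules -/

section trans

variable {m : ℕ} (e : C.N ≃ Fin m) (Ls : Set (Set (Lit C.N)))

private theorem up_inj : Function.Injective (up e) := fun _ _ h =>
  Set.image_injective.2 (map_inj (C := C) (m := m)) h

private theorem up_card (X : Set (Lit C.N)) : (up e X).ncard = X.ncard :=
  Set.ncard_image_of_injective X (map_inj (C := C) (m := m))

private theorem up_mem {X : Set (Lit C.N)} {a : C.N} {s : Bool} (h : ⟨a, s⟩ ∈ X) :
    (⟨.inl a, s⟩ : Lit (ext C (fun a => (e a).val) m).N) ∈ up e X := ⟨⟨a, s⟩, h, rfl⟩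

private theorem up_insert {X : Set (Lit C.N)} (x : Lit C.N) :
    up e (insert x X) = insert (Lit.map Sum.inl x) (up e X) := Set.image_insert_eq

private theorem gate_inl (a : C.N) : (ext C (fun a => (e a).val) m).gate (.inl a) = gm Sum.inl (C.gate a) := rfl

/-- A rule of the old refutation. -/
private theorem trans {Pr : Set (Set (Lit C.N))} {Λ : Set (Lit C.N)} (hΛ : Λ ∈ Ls)
    (hPr : ∀ Δ ∈ Pr, up e Δ ∈ clo T (ext C (fun a => (e a).val) m) (Set.range (FL e Ls)))
    (hs : Pool.Agent.H42.CS.Step T C Pr Λ) :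
    up e Λ ∈ clo T (ext C (fun a => (e a).val) m) (Set.range (FL e Ls)) := by
  classical
  have hL : up e Λ ∈ Set.range (FL e Ls) := ⟨.inl (⟨Λ, hΛ⟩, none), rfl⟩
  cases hs with
  | @hyp A v hA hx =>
    refine clo_step hL (Pool.Agent.H63.AC.Step.hyp (A := A) (v := v) hA fun x hx' => ?_)
    obtain ⟨a, h1, h2⟩ := hx x hx'
    refine ⟨.inl a, ?_, up_mem e h2⟩
    rw [gate_inl, h1]
    rfl
  | @ident a b hg ha hb =>
    refine clo_step hL (Pool.Agent.H63.AC.Step.ident (a := .inl a) (b := .inl b) ?_ (up_mem e ha) (up_mem e hb))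
    rw [gate_inl, gate_inl, hg]
  | weak hΔ hsub => exact clo_step hL (Pool.Agent.H63.AC.Step.weak (hPr _ hΔ) (Set.image_mono hsub))
  | @cut a h1 h2 =>
    have h3 := hPr _ h1
    have h4 := hPr _ h2
    rw [up_insert] at h3 h4
    exact clo_step hL (Pool.Agent.H63.AC.Step.cut (a := .inl a) h3 h4)
  | @andI S a hg ha hS =>
    refine clo_step hL (Pool.Agent.H63.AC.Step.andI (a := .inl a) (S := Lit.map Sum.inl '' S) ?_ (up_mem e ha) ?_)
    · rw [gate_inl, hg]
      rfl
    · rintro _ ⟨x, hx, rfl⟩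
      have h3 := hPr _ (hS x hx)
      rw [up_insert] at h3
      exact h3
  | @andE S a hg ha h1 =>
    refine clo_step hL (Pool.Agent.H63.AC.Step.andE (a := .inl a) (S := Lit.map Sum.inl '' S) ?_ (up_mem e ha) ?_)
    · rw [gate_inl, hg]
      rfl
    · have h3 := hPr _ h1
      have h4 : up e (Λ ∪ Lit.neg '' S) = up e Λ ∪ Lit.neg '' (Lit.map Sum.inl '' S) := by
        unfold up
        rw [Set.image_union, Set.image_image, Set.image_image]
        rfl
      rw [h4] at h3
      exact h3
  | @cover S h =>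
    refine clo_step hL (Pool.Agent.H63.AC.Step.cover (S := up e S) fun c hc => ?_)
    rw [up_card] at hc
    obtain ⟨a, A, b, h1, h2, h3⟩ := h c hc
    refine ⟨.inl a, A, b, ?_, h2, up_mem e h3⟩
    rw [gate_inl, h1]
    rfl
  | @unit a A x hg ha hx =>
    refine clo_step hL (Pool.Agent.H63.AC.Step.unit (a := .inl a) (A := A) (x := Lit.map Sum.inl x) ?_ (up_mem e ha) ?_)
    · rw [gate_inl, hg]
      show Gate.sym A (Lit.map Sum.inl '' {x}) = _
      rw [Set.image_singleton]
      rfl
    · rcases hx with ⟨h1, h2⟩ | ⟨h1, h2⟩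
      · exact Or.inl ⟨h1, ⟨x.neg, h2, rfl⟩⟩
      · exact Or.inr ⟨h1, ⟨x, h2, rfl⟩⟩
  | @sum a p B A A' S hB hd hp ha hc hpΛ haΛ =>
    have hm : m < m + 1 := Nat.lt_succ_self m
    have hch := chain (T := T) e Ls hB hd hp m hm
    have hlast : (⟨m, hm⟩ : Fin (m + 1)) = Fin.last m := rfl
    rw [hlast] at hch
    have hpb : pb C (fun a => (e a).val) p m = B := by
      ext b
      unfold pb
      rw [hp]
      constructor
      · rintro ⟨⟨b', hb', h4⟩, h5⟩
        have h6 : b' = b := congrArg Lit.node h4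
        rw [h6] at hb'
        exact hb'
      · intro h4
        exact ⟨⟨b, h4, rfl⟩, (e b).2⟩
    have hcS : cS C (fun a => (e a).val) p m = ⋃ b ∈ B, S b := by
      unfold cS
      rw [hpb]
      refine Set.iUnion₂_congr fun b hb => ?_
      rw [hB b hb]
      rfl
    refine clo_step hL (Pool.Agent.H63.AC.Step.cut (a := .inr (p, Fin.last m)) ?_ ?_)
    · refine clo_step ⟨.inl (⟨Λ, hΛ⟩, some (p, true)), rfl⟩ (Pool.Agent.H63.AC.Step.weak hch ?_)
      rintro x (rfl | rfl)
      · exact Or.inr (up_mem e hpΛ)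
      · exact Or.inl rfl
    · refine clo_step ⟨.inl (⟨Λ, hΛ⟩, some (p, false)), rfl⟩ (Pool.Agent.H63.AC.Step.cover
        (S := up e (⋃ b ∈ B, S b)) fun c _ => ?_)
      by_cases hcA : c ∈ A'
      · refine ⟨.inl a, A', true, ?_, iff_of_true hcA rfl, Or.inr (up_mem e haΛ)⟩
        rw [gate_inl, ha]
        rfl
      · refine ⟨.inr (p, Fin.last m), cA C (fun a => (e a).val) p m, false, ?_, iff_of_false ?_ (by simp), Or.inl rfl⟩
        · show Gate.sym (cA C (fun a => (e a).val) p m) (Lit.map Sum.inl '' cS C (fun a => (e a).val) p m) = _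
          rw [hcS]
          rfl
        · rintro ⟨c', hc', rfl⟩
          apply hcA
          rw [hpb] at hc' ⊢
          refine hc c' fun b hb => ?_
          have h5 := hc' b hb
          rw [hB b hb] at h5
          exact h5
  | @dist a F J B u A A' hF hJ hB hu ha ht huΛ haΛ =>
    obtain ⟨iv, hiv⟩ : ∃ iv : Set (Lit (ext C (fun a => (e a).val) m).N) → Set (Lit C.N), ∀ X, iv (up e X) = X :=
      ⟨Function.invFun (up e), Function.leftInverse_invFun (up_inj e)⟩
    refine clo_step hL (Pool.Agent.H63.AC.Step.dist (a := .inl a) (F := up e '' F) (J := J)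
      (B := fun j X => .inl (B j (iv X))) (u := fun j => .inl (u j)) (A := A) (A' := A') ?_ ?_ ?_ ?_ ?_ ?_ ?_
      (up_mem e haΛ))
    · rintro _ ⟨X, hX, rfl⟩ _ ⟨Y, hY, rfl⟩ hne
      show Disjoint (up e X) (up e Y)
      refine (Set.disjoint_image_iff (map_inj (C := C) (m := m))).2 ?_
      exact hF hX hY (fun h => hne (by rw [h]))
    · rintro _ ⟨X, hX, rfl⟩
      rw [up_card]
      exact hJ X hX
    · rintro j hj _ ⟨X, hX, rfl⟩
      beta_reduce
      rw [hiv, gate_inl, hB j hj X hX]
      rfl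
    · intro j hj
      beta_reduce
      rw [gate_inl, hu j hj]
      show Gate.sym (A j) (Lit.map Sum.inl '' ((fun X => (⟨B j X, true⟩ : Lit C.N)) '' F)) = _
      congr 1
      rw [Set.image_image, Set.image_image]
      refine Set.image_congr fun X hX => ?_
      beta_reduce
      rw [hiv]
      rfl
    · rw [gate_inl, ha]
      show Gate.sym A' (Lit.map Sum.inl '' ⋃₀ F) = Gate.sym A' (⋃₀ (up e '' F))
      exact congrArg (Gate.sym A') Set.image_sUnion
    · intro t h1 h2
      refine ht t h1 ?_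
      rw [h2, Set.ncard_image_of_injective _ (up_inj e)]
    · intro j hj
      exact up_mem e (huΛ j hj)

end trans

/-- The simulation. -/
theorem sim (R : Pool.Agent.H42.CS.Refutation T P) : ∃ R' : Pool.Agent.H63.AC.Refutation T P,
    R'.size ≤ R.size ^ 7 ∧ ∀ D : ℕ, (∀ a, R.C.rank a ≤ D) → ∀ a, R'.C.rank a ≤ D := by
  classical
  have := R.C.fin
  have := lit_finite R.C.N
  obtain ⟨e⟩ : Nonempty (R.C.N ≃ Fin (Nat.card R.C.N)) := ⟨Finite.equivFin R.C.N⟩
  obtain ⟨m, hm⟩ : ∃ m, m = Nat.card R.C.N := ⟨_, rfl⟩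
  rw [← hm] at e
  have key : ∀ n : ℕ, ∀ Λ ∈ R.lines, R.order Λ < n →
      up e Λ ∈ clo T (ext R.C (fun a => (e a).val) m) (Set.range (FL e R.lines)) := by
    intro n
    induction n with
    | zero => intro Λ _ h; exact absurd h (Nat.not_lt_zero _)
    | succ n ih =>
      intro Λ hΛ hn
      refine trans e R.lines hΛ ?_ (R.step Λ hΛ)
      rintro Δ ⟨h1, h2⟩
      exact ih Δ h1 (lt_of_lt_of_le h2 (Nat.lt_succ_iff.1 hn))
  have h0 := key (R.order ∅ + 1) ∅ R.empty_mem (Nat.lt_succ_self _)
  have h0' : up e (∅ : Set (Lit R.C.N)) = ∅ := Set.image_empty _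
  rw [h0'] at h0
  obtain ⟨R', hC, hl⟩ := clo_ref _ _ h0
  refine ⟨R', ?_, ?_⟩
  · have hN : Nat.card R'.C.N = m + m * (m + 1) := by
      rw [hC]
      show Nat.card (R.C.N ⊕ (R.C.N × Fin (m + 1))) = _
      rw [Nat.card_sum, Nat.card_prod, Nat.card_eq_fintype_card (α := Fin (m + 1)), Fintype.card_fin, ← hm]
    have hX : Nat.card ((R.lines × Option (R.C.N × Bool)) ⊕ ((R.C.N × Fin (m + 1)) ⊕ (R.C.N × Fin m × Fin 5))) =
        R.lines.ncard * (m * 2 + 1) + (m * (m + 1) + m * (m * 5)) := by
      rw [Nat.card_sum, Nat.card_sum, Nat.card_prod, Nat.card_prod, Nat.card_prod, Nat.card_prod,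
        Finite.card_option, Nat.card_prod, Nat.card_eq_fintype_card (α := Fin (m + 1)), Fintype.card_fin,
        Nat.card_eq_fintype_card (α := Fin m), Fintype.card_fin, Nat.card_eq_fintype_card (α := Fin 5),
        Fintype.card_fin, Nat.card_eq_fintype_card (α := Bool), Fintype.card_bool, ← hm, Nat.card_coe_set_eq]
    have hL : R'.lines.ncard ≤ R.lines.ncard * (m * 2 + 1) + (m * (m + 1) + m * (m * 5)) := by
      rw [← hX]
      refine hl.trans ?_
      rw [← Nat.card_coe_set_eq]
      exact Finite.card_range_le _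
    have hs : R.size = m + R.lines.ncard := by
      rw [hm]
      rfl
    have hl1 : 1 ≤ R.lines.ncard := by
      exact (Set.ncard_pos (Set.toFinite _)).2 ⟨∅, R.empty_mem⟩
    unfold Pool.Agent.H63.AC.Refutation.size
    rw [hN, hs]
    obtain ⟨l, hl⟩ : ∃ l, l = R.lines.ncard := ⟨_, rfl⟩
    rw [← hl] at hL hl1 ⊢
    obtain ⟨s, hs'⟩ : ∃ s, s = m + l := ⟨_, rfl⟩
    rw [← hs']
    rcases Nat.eq_zero_or_pos m with h0 | h0
    · subst h0
      have h1 : s = l := by omega
      rw [h1]
      have h2 : l ≤ l ^ 7 := Nat.le_self_pow (by norm_num) l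
      simp only [Nat.zero_mul, Nat.zero_add, Nat.mul_one, Nat.add_zero] at hL ⊢
      omega
    · have h1 : 2 ≤ s := by omega
      have h2 : m ≤ s := by omega
      have h3 : l ≤ s := by omega
      have h4 : m + m * (m + 1) + R'.lines.ncard ≤ 10 * s ^ 2 := by
        have e1 : m * m ≤ s ^ 2 := by rw [pow_two]; exact Nat.mul_le_mul h2 h2
        have e2 : m * (m + l) ≤ s ^ 2 := by rw [pow_two, ← hs']; exact Nat.mul_le_mul_right s h2
        have e3 : s ≤ s ^ 2 := Nat.le_self_pow (by norm_num) s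
        have e4 : l * (m * 2 + 1) + (m * (m + 1) + m * (m * 5)) = 2 * (m * (m + l)) + 4 * (m * m) + (m + l) := by ring
        have e5 : m + m * (m + 1) = m * m + 2 * m := by ring
        omega
      have h5 : 32 ≤ s ^ 5 := by
        calc 32 = 2 ^ 5 := by norm_num
          _ ≤ s ^ 5 := Nat.pow_le_pow_left h1 5
      calc m + m * (m + 1) + R'.lines.ncard ≤ 10 * s ^ 2 := h4
        _ ≤ s ^ 5 * s ^ 2 := Nat.mul_le_mul_right _ (by omega)
        _ = s ^ 7 := by rw [← pow_add]
  · intro D hD
    have h2 : ∀ C' : Circuit Rel P, C' = ext R.C (fun a => (e a).val) m → ∀ a, C'.rank a ≤ D := by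
      rintro _ rfl (a | ⟨p, i⟩)
      · exact hD a
      · exact hD p
    exact h2 _ hC

end Pool.Agent.H46.AC
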