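import Pool.Agent.H46.AC.Sim
import Pool.Agent.H79.CQ.Upa

/-!
# THEOREM ACS, chapter E: short refutations with the binary sum rule
-/

set_option autoImplicit false

namespace Pool.Agent.H46.AC

/-- The axioms `T d` have refutations of polynomial size and of depth at most `7` with the binary sum rule. -/
theorem upper_bin (d : ℕ) : ∃ c : ℕ, ∀ n : ℕ, 2 ≤ n →
    ∃ R : Pool.Agent.H63.AC.Refutation (Pool.Agent.H79.CQ.T d) (Fin n), R.size ≤ n ^ c ∧ ∀ a, R.C.rank a ≤ 7 := by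
  obtain ⟨c, hc⟩ := Pool.Agent.H79.CQ.upper d
  refine ⟨c * 7, fun n hn => ?_⟩
  obtain ⟨R, h1, h2⟩ := hc n hn
  obtain ⟨R', h3, h4⟩ := sim R
  refine ⟨R', h3.trans ?_, h4 7 h2⟩
  rw [pow_mul]
  exact Nat.pow_le_pow_left h1 7

end Pool.Agent.H46.AC
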